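import Mathlib
import Pool.Agent.Helper41.Cad.Defs
import Pool.Agent.Helper41.Cad.Upper
import Pool.Agent.Helper41.Cad.Build

set_option autoImplicit false

/-!
# The optimal coefficient of `f557` is `5`

Plane graphs are defined in `Pool.Agent.Helper41.Cad.Defs`, by the cyclic order of the darts around
each vertex, the faces on the left of the darts, and Euler's formula.

Upper bound (`Upper.lean`): a discharging proof of the inequality with the coefficient `5`.
A vertex `v` has the charge `12 (6 - deg v)`; a vertex of degree `5` gives `4`, `9/2`, `6` to each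
triangular face `566`, `556`, `555`, gives `6` to each nontriangular face, and sends to a neighbour of
degree `7`, `8`, `≥ 9` the charge `4 + j/2`, `6 - 3j/2`, `8 - 2j`, where `j` is the number of triangles
at this edge whose third vertex has degree `5`.

Lower bound (`Example.lean`, `Build.lean`): a plane triangulation with 114 vertices, with degrees
`5, 6, 7, 8` (48, 32, 32 and 2 vertices), which has 16 faces `557`, 16 faces `566` and no faces `555`
or `556`; here `16 c + 64 < 144` for `c < 5`. Around each of the two vertices of degree `8` there is a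
ring of eight vertices of degree `5`, then a ring of eight vertices of degree `7`.
-/

namespace Pool.Agent.Results.MP_cadcf7_co.OptimalCoefficient

open Pool.Agent.Helper41.Cad

/-- The least real number `c ≥ 0` such that
`18 f555 + 9 f556 + c f557 + 4 f566 ≥ 144` for all finite simple plane graphs with minimum degree at
least `5` is `5`. -/
theorem result : IsLeast {c : ℝ | 0 ≤ c ∧
    ∀ (V : Type) [Finite V] [Nonempty V] (P : PlaneGraph V), (∀ v, 5 ≤ P.deg v) →
      144 ≤ 18 * (P.f 5 5 5 : ℝ) + 9 * (P.f 5 5 6 : ℝ) + c * (P.f 5 5 7 : ℝ) +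
        4 * (P.f 5 6 6 : ℝ)} 5 := by
  constructor
  · refine ⟨by norm_num, ?_⟩
    intro V _ _ P h5
    have : Fintype V := Fintype.ofFinite V
    have h := P.borodin h5
    exact_mod_cast h
  · rintro c ⟨-, h⟩
    have hne : Nonempty (Fin 114) := ⟨⟨0, by norm_num⟩⟩
    have h1 := h (Fin 114) Ex.P (fun v => by rw [Ex.P_deg]; exact Ex.deg_ge v)
    have a1 : (Ex.P.f 5 5 5 : ℝ) ≤ 0 := by exact_mod_cast Ex.f555
    have a2 : (Ex.P.f 5 5 6 : ℝ) ≤ 0 := by exact_mod_cast Ex.f556
    have a3 : (Ex.P.f 5 5 7 : ℝ) ≤ 16 := by exact_mod_cast Ex.f557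
    have a4 : (Ex.P.f 5 6 6 : ℝ) ≤ 16 := by exact_mod_cast Ex.f566
    have a5 : (0 : ℝ) ≤ (Ex.P.f 5 5 7 : ℝ) := Nat.cast_nonneg _
    by_contra hc
    rw [not_le] at hc
    have h2 : c * (Ex.P.f 5 5 7 : ℝ) ≤ 5 * (Ex.P.f 5 5 7 : ℝ) :=
      mul_le_mul_of_nonneg_right hc.le a5
    have h3 : (Ex.P.f 5 5 7 : ℝ) = 16 := by
      apply le_antisymm a3
      linarith
    rw [h3] at h1
    linarith

end Pool.Agent.Results.MP_cadcf7_co.OptimalCoefficient
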